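import Pool.Agent.Helper76.CQ.Defs

/-!
# Project CQ, piece 8e: cubic forms and third derivatives
-/

namespace Pool.Agent.Helper7.CQ

open MvPolynomial Pool.Agent.Helper76.CY Pool.Agent.Helper76.CQ

/-! ### Exponents -/

lemma e3_eq_iff (i j k a b c : Fin 10) :
    (Finsupp.single i 1 + Finsupp.single j 1 + Finsupp.single k 1 : Fin 10 →₀ ℕ) =
      Finsupp.single a 1 + Finsupp.single b 1 + Finsupp.single c 1 ↔
    (i = a ∧ j = b ∧ k = c) ∨ (i = a ∧ j = c ∧ k = b) ∨ (i = b ∧ j = a ∧ k = c) ∨
      (i = b ∧ j = c ∧ k = a) ∨ (i = c ∧ j = a ∧ k = b) ∨ (i = c ∧ j = b ∧ k = a) := by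
  constructor
  · intro h
    have key : ∀ (x y p q r : Fin 10),
        (Finsupp.single x 1 + Finsupp.single y 1 + Finsupp.single p 1 : Fin 10 →₀ ℕ) =
          Finsupp.single x 1 + Finsupp.single q 1 + Finsupp.single r 1 →
        (y = q ∧ p = r) ∨ (y = r ∧ p = q) := by
      intro x y p q r h
      rw [add_assoc, add_assoc] at h
      have h1 := add_left_cancel h
      rw [Finsupp.single_add_single_eq_single_add_single one_ne_zero one_ne_zero] at h1
      rcases h1 with h1 | ⟨-, h1⟩ | ⟨h1, -⟩
      · exact Or.inl h1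
      · exact Or.inr h1
      · exact absurd h1 (by norm_num)
    have h0 := DFunLike.congr_fun h i
    simp only [Finsupp.add_apply, Finsupp.single_apply, if_true] at h0
    have hi : a = i ∨ b = i ∨ c = i := by
      by_contra hcon
      push Not at hcon
      rw [if_neg hcon.1, if_neg hcon.2.1, if_neg hcon.2.2] at h0
      omega
    rcases hi with rfl | rfl | rfl
    · rcases key _ _ _ _ _ h with h1 | h1
      · exact Or.inl ⟨rfl, h1⟩
      · exact Or.inr (Or.inl ⟨rfl, h1⟩)
    · have h' : (Finsupp.single b 1 + Finsupp.single j 1 + Finsupp.single k 1 : Fin 10 →₀ ℕ) =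
          Finsupp.single b 1 + Finsupp.single a 1 + Finsupp.single c 1 := by
        rw [h]; abel
      rcases key _ _ _ _ _ h' with h1 | h1
      · exact Or.inr (Or.inr (Or.inl ⟨rfl, h1⟩))
      · exact Or.inr (Or.inr (Or.inr (Or.inl ⟨rfl, h1⟩)))
    · have h' : (Finsupp.single c 1 + Finsupp.single j 1 + Finsupp.single k 1 : Fin 10 →₀ ℕ) =
          Finsupp.single c 1 + Finsupp.single a 1 + Finsupp.single b 1 := by
        rw [h]; abel
      rcases key _ _ _ _ _ h' with h1 | h1
      · exact Or.inr (Or.inr (Or.inr (Or.inr (Or.inl ⟨rfl, h1⟩))))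
      · exact Or.inr (Or.inr (Or.inr (Or.inr (Or.inr ⟨rfl, h1⟩))))
  · rintro (⟨rfl, rfl, rfl⟩ | ⟨rfl, rfl, rfl⟩ | ⟨rfl, rfl, rfl⟩ | ⟨rfl, rfl, rfl⟩ |
      ⟨rfl, rfl, rfl⟩ | ⟨rfl, rfl, rfl⟩) <;> abel

lemma mult3_swap12 (i j k : Fin 10) : mult3 i j k = mult3 j i k := by
  unfold mult3
  by_cases h1 : i = j <;> by_cases h2 : j = k <;> by_cases h3 : i = k <;> simp_all [eq_comm]

lemma mult3_swap23 (i j k : Fin 10) : mult3 i j k = mult3 i k j := by
  unfold mult3
  by_cases h1 : i = j <;> by_cases h2 : j = k <;> by_cases h3 : i = k <;> simp_all [eq_comm]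

theorem third_swap12 {K : Type*} [CommRing K] (F : MvPolynomial (Fin 10) K) (i j k : Fin 10) :
    third F i j k = third F j i k := by
  unfold third
  rw [mult3_swap12, add_comm (Finsupp.single i 1 : Fin 10 →₀ ℕ) (Finsupp.single j 1)]

theorem third_swap23 {K : Type*} [CommRing K] (F : MvPolynomial (Fin 10) K) (i j k : Fin 10) :
    third F i j k = third F i k j := by
  unfold third
  rw [mult3_swap23, add_right_comm]

/-! ### Linearity -/

section

variable {K : Type*} [CommRing K]

lemma third_add (F G : MvPolynomial (Fin 10) K) (i j k : Fin 10) :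
    third (F + G) i j k = third F i j k + third G i j k := by
  simp only [third, coeff_add]
  ring

lemma third_sub (F G : MvPolynomial (Fin 10) K) (i j k : Fin 10) :
    third (F - G) i j k = third F i j k - third G i j k := by
  simp only [third, coeff_sub]
  ring

lemma third_C_mul (c : K) (F : MvPolynomial (Fin 10) K) (i j k : Fin 10) :
    third (C c * F) i j k = c * third F i j k := by
  simp only [third, coeff_C_mul]
  ring

lemma third_zero (i j k : Fin 10) : third (0 : MvPolynomial (Fin 10) K) i j k = 0 := by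
  simp [third]

lemma third_sum {ι : Type*} (s : Finset ι) (F : ι → MvPolynomial (Fin 10) K) (i j k : Fin 10) :
    third (∑ l ∈ s, F l) i j k = ∑ l ∈ s, third (F l) i j k := by
  simp only [third, coeff_sum, Finset.mul_sum]

lemma XXX_eq (a b c : Fin 10) : (X a * X b * X c : MvPolynomial (Fin 10) K) =
    monomial (Finsupp.single a 1 + Finsupp.single b 1 + Finsupp.single c 1) 1 := by
  simp only [X, monomial_mul, mul_one]

lemma mult3_sym3 (i j k a b c : Fin 10) : (mult3 i j k : ℤ) *
    (if (Finsupp.single a 1 + Finsupp.single b 1 + Finsupp.single c 1 : Fin 10 →₀ ℕ) =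
      Finsupp.single i 1 + Finsupp.single j 1 + Finsupp.single k 1 then 1 else 0) =
    sym3 a b c i j k := by
  by_cases h : (Finsupp.single a 1 + Finsupp.single b 1 + Finsupp.single c 1 : Fin 10 →₀ ℕ) =
      Finsupp.single i 1 + Finsupp.single j 1 + Finsupp.single k 1
  · rw [if_pos h, mul_one]
    rw [eq_comm, e3_eq_iff] at h
    unfold mult3 sym3
    rcases h with ⟨rfl, rfl, rfl⟩ | ⟨rfl, rfl, rfl⟩ | ⟨rfl, rfl, rfl⟩ | ⟨rfl, rfl, rfl⟩ |
      ⟨rfl, rfl, rfl⟩ | ⟨rfl, rfl, rfl⟩ <;>
    by_cases h1 : i = j <;> by_cases h2 : j = k <;> by_cases h3 : i = k <;>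
      simp_all [eq_comm]
  · rw [if_neg h, mul_zero]
    rw [eq_comm, e3_eq_iff] at h
    push Not at h
    obtain ⟨h1, h2, h3, h4, h5, h6⟩ := h
    unfold sym3
    rw [if_neg (fun h => h1 h.1 h.2.1 h.2.2), if_neg (fun h => h2 h.1 h.2.1 h.2.2),
      if_neg (fun h => h3 h.1 h.2.1 h.2.2), if_neg (fun h => h4 h.1 h.2.1 h.2.2),
      if_neg (fun h => h5 h.1 h.2.1 h.2.2), if_neg (fun h => h6 h.1 h.2.1 h.2.2)]
    norm_num

lemma third_XXX (a b c i j k : Fin 10) :
    third (X a * X b * X c : MvPolynomial (Fin 10) K) i j k = ((sym3 a b c i j k : ℤ) : K) := by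
  rw [← mult3_sym3, XXX_eq, third, coeff_monomial]
  push_cast
  congr 1

end

theorem third_F0 : third F0 = D0 ℚ := by
  funext i j k
  unfold F0
  rw [third_sum]
  have h2 : (2 : MvPolynomial (Fin 10) ℚ) = C 2 := (map_ofNat C 2).symm
  have h : ∀ l : Fin 10, third (X l * X (l + 3) ^ 2 - X l ^ 2 * X (l + 4) +
      X l * X (l + 1) * X (l + 5) - X l * X (l + 2) * X (l + 4) + X l * X (l + 2) * X (l + 5) +
      X l * X (l + 2) * X (l + 6) + 2 * (X l * X (l + 2) * X (l + 7)) +
      X l * X (l + 3) * X (l + 6) : MvPolynomial (Fin 10) ℚ) i j k =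
      ((sym3 l (l + 3) (l + 3) i j k - sym3 l (l + 0) (l + 4) i j k + sym3 l (l + 1) (l + 5) i j k -
        sym3 l (l + 2) (l + 4) i j k + sym3 l (l + 2) (l + 5) i j k + sym3 l (l + 2) (l + 6) i j k +
        2 * sym3 l (l + 2) (l + 7) i j k + sym3 l (l + 3) (l + 6) i j k : ℤ) : ℚ) := by
    intro l
    have e1 : (X l * X (l + 3) ^ 2 : MvPolynomial (Fin 10) ℚ) =
        X l * X (l + 3) * X (l + 3) := by ring
    have e2 : (X l ^ 2 * X (l + 4) : MvPolynomial (Fin 10) ℚ) =
        X l * X (l + 0) * X (l + 4) := by rw [add_zero]; ring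
    rw [e1, e2, h2]
    simp only [third_add, third_sub, third_C_mul, third_XXX]
    push_cast
    ring
  rw [Finset.sum_congr rfl fun l _ => h l, ← Int.cast_sum]
  unfold D0 D0Z orb
  congr 1
  simp only [Finset.sum_add_distrib, Finset.sum_sub_distrib, Finset.mul_sum]

/-! ### The cubic form of the third derivatives -/

section

variable {K : Type*} [CommRing K]

lemma cubic_add (D D' : Ten K) : cubic (D + D') = cubic D + cubic D' := by
  simp only [cubic, Pi.add_apply, C_add, add_mul, Finset.sum_add_distrib]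

lemma cubic_smul (c : K) (D : Ten K) : cubic (fun i j k => c * D i j k) = C c * cubic D := by
  simp only [cubic, C_mul, Finset.mul_sum, mul_assoc]

lemma cubic_zero : cubic (fun _ _ _ => 0 : Ten K) = 0 := by
  simp [cubic]

lemma cubic_sum {ι : Type*} (s : Finset ι) (D : ι → Ten K) :
    cubic (fun i j k => ∑ l ∈ s, D l i j k) = ∑ l ∈ s, cubic (D l) := by
  classical
  induction s using Finset.induction_on with
  | empty => simpa using cubic_zero
  | insert a s ha ih =>
    rw [Finset.sum_insert ha, ← ih, ← cubic_add]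
    congr 1
    funext i j k
    rw [Finset.sum_insert ha]
    rfl

lemma cubic_ind (a b c : Fin 10) :
    cubic (fun i j k => if i = a ∧ j = b ∧ k = c then (1 : K) else 0) = X a * X b * X c := by
  unfold cubic
  rw [Finset.sum_eq_single a (fun i _ hi => by simp [hi]) (by simp)]
  rw [Finset.sum_eq_single b (fun i _ hi => by simp [hi]) (by simp)]
  rw [Finset.sum_eq_single c (fun i _ hi => by simp [hi]) (by simp)]
  simp

lemma cubic_sym3 (a b c : Fin 10) :
    cubic (fun i j k => ((sym3 a b c i j k : ℤ) : K)) = C 6 * (X a * X b * X c) := by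
  have h : (fun i j k => ((sym3 a b c i j k : ℤ) : K)) =
      ((((((fun i j k => if i = a ∧ j = b ∧ k = c then (1 : K) else 0) +
      (fun i j k => if i = a ∧ j = c ∧ k = b then (1 : K) else 0)) +
      (fun i j k => if i = b ∧ j = a ∧ k = c then (1 : K) else 0)) +
      (fun i j k => if i = b ∧ j = c ∧ k = a then (1 : K) else 0)) +
      (fun i j k => if i = c ∧ j = a ∧ k = b then (1 : K) else 0)) +
      (fun i j k => if i = c ∧ j = b ∧ k = a then (1 : K) else 0) : Ten K) := by
    funext i j k
    simp only [sym3, Pi.add_apply]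
    push_cast
    rfl
  rw [h, cubic_add, cubic_add, cubic_add, cubic_add, cubic_add, cubic_ind, cubic_ind, cubic_ind,
    cubic_ind, cubic_ind, cubic_ind]
  have h6 : (C 6 : MvPolynomial (Fin 10) K) = 6 := map_ofNat C 6
  rw [h6]
  ring

lemma exists_single_add (m : Fin 10 →₀ ℕ) (n : ℕ) (h : m.degree = n + 1) :
    ∃ (a : Fin 10) (m' : Fin 10 →₀ ℕ), m = Finsupp.single a 1 + m' ∧ m'.degree = n := by
  have hm : m ≠ 0 := by
    rintro rfl
    simp at h
  obtain ⟨a, ha⟩ := Finsupp.ne_iff.1 hm
  have hle : Finsupp.single a 1 ≤ m := by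
    rw [Finsupp.single_le_iff]
    exact Nat.one_le_iff_ne_zero.2 ha
  refine ⟨a, m - Finsupp.single a 1, (add_tsub_cancel_of_le hle).symm, ?_⟩
  have h1 : (Finsupp.single a 1 + (m - Finsupp.single a 1)).degree = n + 1 := by
    rw [add_tsub_cancel_of_le hle, h]
  rw [map_add, Finsupp.degree_single] at h1
  omega

lemma exists_e3 (m : Fin 10 →₀ ℕ) (h : m.degree = 3) :
    ∃ a b c : Fin 10, m = Finsupp.single a 1 + Finsupp.single b 1 + Finsupp.single c 1 := by
  obtain ⟨a, m1, rfl, h1⟩ := exists_single_add m 2 h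
  obtain ⟨b, m2, rfl, h2⟩ := exists_single_add m1 1 h1
  obtain ⟨c, m3, rfl, h3⟩ := exists_single_add m2 0 h2
  refine ⟨a, b, c, ?_⟩
  rw [Finsupp.degree_eq_zero_iff] at h3
  rw [h3]
  abel

end

theorem cubic_third {K : Type*} [CommRing K] (F : MvPolynomial (Fin 10) K)
    (hF : F.IsHomogeneous 3) : cubic (third F) = C 6 * F := by
  classical
  have h1 : ∀ m ∈ F.support, cubic (third (monomial m (coeff m F))) = C 6 * monomial m (coeff m F) := by
    intro m hm
    have hd : m.degree = 3 := by
      have h5 := hF (mem_support_iff.1 hm)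
      have h6 : m.degree = Finsupp.weight (fun _ => 1) m := by
        rw [← Finsupp.degree_eq_weight_one]
      rw [h6]
      exact h5
    obtain ⟨a, b, c, hm3⟩ := exists_e3 m hd
    have h2 : monomial m (coeff m F) = C (coeff m F) * (X a * X b * X c) := by
      rw [XXX_eq, C_mul_monomial, mul_one, hm3]
    rw [h2]
    have h3 : third (C (coeff m F) * (X a * X b * X c)) =
        fun i j k => coeff m F * ((sym3 a b c i j k : ℤ) : K) := by
      funext i j k
      rw [third_C_mul, third_XXX]
    rw [h3, cubic_smul, cubic_sym3]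
    ring
  have h4 : third F = fun i j k => ∑ m ∈ F.support, third (monomial m (coeff m F)) i j k := by
    funext i j k
    rw [← third_sum, support_sum_monomial_coeff]
  rw [h4, cubic_sum, Finset.sum_congr rfl h1, ← Finset.mul_sum, support_sum_monomial_coeff]

/-! ### Change of coordinates -/

section

variable {K : Type*} [CommRing K] {R : Type*} [CommRing R] [Algebra K R] (D : Ten K)

lemma tri_sum_left {ι : Type*} (s : Finset ι) (x : ι → Fin 10 → R) (y z : Fin 10 → R) :
    tri D (∑ l ∈ s, x l) y z = ∑ l ∈ s, tri D (x l) y z := by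
  classical
  induction s using Finset.induction_on with
  | empty => simp
  | insert a s ha ih => rw [Finset.sum_insert ha, Finset.sum_insert ha, tri_add_left, ih]

lemma tri_sum_mid {ι : Type*} (s : Finset ι) (x : ι → Fin 10 → R) (y z : Fin 10 → R) :
    tri D y (∑ l ∈ s, x l) z = ∑ l ∈ s, tri D y (x l) z := by
  classical
  induction s using Finset.induction_on with
  | empty => simp
  | insert a s ha ih => rw [Finset.sum_insert ha, Finset.sum_insert ha, tri_add_mid, ih]

lemma tri_sum_right {ι : Type*} (s : Finset ι) (x : ι → Fin 10 → R) (y z : Fin 10 → R) :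
    tri D y z (∑ l ∈ s, x l) = ∑ l ∈ s, tri D y z (x l) := by
  classical
  induction s using Finset.induction_on with
  | empty => simp
  | insert a s ha ih => rw [Finset.sum_insert ha, Finset.sum_insert ha, tri_add_right, ih]

end

theorem cubic_frT {K L : Type*} [CommRing K] [CommRing L] [Algebra K L] (D : Ten K)
    (g : Fin 10 → Fin 10 → L) : cubic (frT D g) = inFrame g (cubic D) := by
  have h1 : inFrame g (cubic D) = tri D
      (∑ i, (X i : MvPolynomial (Fin 10) L) • (fun a => C (g i a) : Fin 10 → MvPolynomial (Fin 10) L))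
      (∑ i, (X i : MvPolynomial (Fin 10) L) • (fun a => C (g i a) : Fin 10 → MvPolynomial (Fin 10) L))
      (∑ i, (X i : MvPolynomial (Fin 10) L) •
        (fun a => C (g i a) : Fin 10 → MvPolynomial (Fin 10) L)) := by
    have h2 : ∀ j, (∑ i, (X i : MvPolynomial (Fin 10) L) •
        (fun a => C (g i a) : Fin 10 → MvPolynomial (Fin 10) L)) j = ∑ i, C (g i j) * X i := by
      intro j
      rw [Finset.sum_apply]
      refine Finset.sum_congr rfl fun i _ => ?_
      rw [Pi.smul_apply, smul_eq_mul, mul_comm]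
    unfold inFrame cubic tri
    simp only [map_sum, map_mul, aeval_X, h2]
    refine Finset.sum_congr rfl fun i _ => Finset.sum_congr rfl fun j _ =>
      Finset.sum_congr rfl fun k _ => ?_
    congr 3
    exact aeval_C _ _
  rw [h1, tri_sum_left]
  unfold cubic
  refine Finset.sum_congr rfl fun i _ => ?_
  rw [tri_smul_left, tri_sum_mid, Finset.mul_sum]
  refine Finset.sum_congr rfl fun j _ => ?_
  rw [tri_smul_mid, tri_sum_right, Finset.mul_sum, Finset.mul_sum]
  refine Finset.sum_congr rfl fun k _ => ?_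
  rw [tri_smul_right]
  have h3 := tri_map D (IsScalarTower.toAlgHom K L (MvPolynomial (Fin 10) L)) (g i) (g j) (g k)
  have h4 : tri D (fun a => C (g i a) : Fin 10 → MvPolynomial (Fin 10) L) (fun a => C (g j a))
      (fun a => C (g k a)) = C (frT D g i j k) := h3.symm
  rw [h4]
  ring

end Pool.Agent.Helper7.CQ
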