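import Pool.Agent.Helper76.CQ.Desc

/-!
# Project CQ, piece D2: numerators
-/

namespace Pool.Agent.Helper7.CQ

open MvPolynomial Pool.Agent.Helper76.CY Pool.Agent.Helper76.CQ

section

variable {T T' : Type*} [CommRing T] [CommRing T'] (φ : T →+* T')

lemma row_map' (y : Idx → T) (i : Fin 3) (l : Fin 10) :
    φ (row y i l) = row (fun q => φ (y q)) i l := by
  simp only [row, Pi.add_apply, map_add]
  congr 1
  · simp only [bv, Pi.single_apply]
    split_ifs <;> simp
  · simp only [tv]
    split_ifs <;> simp

lemma move_map (g : Matrix (Fin 10) (Fin 10) T) (y : Idx → T) (i : Fin 3) (j : Fin 10) :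
    φ (move g y i j) = move (g.map φ) (fun q => φ (y q)) i j := by
  simp only [move, map_sum, map_mul, row_map', Matrix.map_apply]

lemma blk_map (g : Matrix (Fin 10) (Fin 10) T) (y : Idx → T) :
    (blk (move g y)).map φ = blk (move (g.map φ) (fun q => φ (y q))) := by
  ext i j
  simp only [Matrix.map_apply, blk, Matrix.of_apply, move_map]

end

theorem dch_map {T T' : Type*} [CommRing T] [CommRing T'] (φ : T →+* T')
    (g : Matrix (Fin 10) (Fin 10) T) (y : Idx → T) :
    φ (dch g y) = dch (g.map φ) (fun q => φ (y q)) := by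
  unfold dch
  rw [RingHom.map_det, ← blk_map]
  rfl

theorem chg_map {T T' : Type*} [CommRing T] [CommRing T'] (φ : T →+* T')
    (g : Matrix (Fin 10) (Fin 10) T) (y : Idx → T) (h : IsUnit (dch g y)) (q : Idx) :
    φ (chg g y q) = chg (g.map φ) (fun q => φ (y q)) q := by
  have h1 : (blk (move (g.map φ) (fun q => φ (y q))))⁻¹ = ((blk (move g y))⁻¹).map φ := by
    apply Matrix.inv_eq_right_inv
    rw [← blk_map, ← Matrix.map_mul, Matrix.mul_nonsing_inv _ h]
    exact Matrix.map_one _ (map_zero φ) (map_one φ)
  unfold chg chart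
  rw [map_sum, h1]
  refine Finset.sum_congr rfl fun j _ => ?_
  rw [map_mul, move_map, Matrix.map_apply]

/-- The polynomial `det` of the left block of `(1 | X) g`. -/
theorem aeval_dch {L T : Type*} [CommRing L] [CommRing T] [Algebra L T]
    (g : Matrix (Fin 10) (Fin 10) L) (y : Idx → T) :
    aeval y (dch (g.map (C : L →+* MvPolynomial Idx L)) X) = dch (g.map (algebraMap L T)) y := by
  have h1 := dch_map (aeval y : MvPolynomial Idx L →ₐ[L] T).toRingHom
    (g.map (C : L →+* MvPolynomial Idx L)) X
  have h2 : (g.map (C : L →+* MvPolynomial Idx L)).map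
      (aeval y : MvPolynomial Idx L →ₐ[L] T).toRingHom = g.map (algebraMap L T) := by
    ext i j
    simp only [Matrix.map_apply]
    exact aeval_C y (g i j)
  have h3 : (fun q => (aeval y : MvPolynomial Idx L →ₐ[L] T).toRingHom
      (X q : MvPolynomial Idx L)) = y := by
    funext q
    exact aeval_X y q
  rw [h2, h3] at h1
  exact h1

/-- The numerators of the chart coordinates. -/
noncomputable def numU {L : Type*} [CommRing L] (g : Matrix (Fin 10) (Fin 10) L) (q : Idx) :
    MvPolynomial Idx L :=
  ∑ j, (blk (move (g.map (C : L →+* MvPolynomial Idx L)) X)).adjugate q.1 j *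
    move (g.map (C : L →+* MvPolynomial Idx L)) X j ⟨(q.2 : ℕ) + 3, by omega⟩

theorem aeval_numU {L T : Type*} [CommRing L] [CommRing T] [Algebra L T]
    (g : Matrix (Fin 10) (Fin 10) L) (y : Idx → T)
    (h : IsUnit (dch (g.map (algebraMap L T)) y)) (q : Idx) :
    aeval y (numU g q) = dch (g.map (algebraMap L T)) y * chg (g.map (algebraMap L T)) y q := by
  set φ : MvPolynomial Idx L →+* T := (aeval y : MvPolynomial Idx L →ₐ[L] T).toRingHom with hφ
  have h2 : (g.map (C : L →+* MvPolynomial Idx L)).map φ = g.map (algebraMap L T) := by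
    ext i j
    simp only [Matrix.map_apply]
    exact aeval_C y (g i j)
  have h3 : (fun q => φ (X q : MvPolynomial Idx L)) = y := by
    funext q
    exact aeval_X y q
  have hm : ∀ i j, φ (move (g.map (C : L →+* MvPolynomial Idx L)) X i j) =
      move (g.map (algebraMap L T)) y i j := by
    intro i j
    rw [move_map, h2, h3]
  have hb : (blk (move (g.map (C : L →+* MvPolynomial Idx L)) X)).map φ =
      blk (move (g.map (algebraMap L T)) y) := by
    rw [blk_map, h2, h3]
  have ha : ∀ i j, φ ((blk (move (g.map (C : L →+* MvPolynomial Idx L)) X)).adjugate i j) =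
      (blk (move (g.map (algebraMap L T)) y)).adjugate i j := by
    intro i j
    rw [← hb]
    have h4 := RingHom.map_adjugate φ (blk (move (g.map (C : L →+* MvPolynomial Idx L)) X))
    exact congrFun (congrFun h4 i) j
  have hinv : ∀ i j, (blk (move (g.map (algebraMap L T)) y)).adjugate i j =
      dch (g.map (algebraMap L T)) y * (blk (move (g.map (algebraMap L T)) y))⁻¹ i j := by
    intro i j
    rw [Matrix.inv_def, Matrix.smul_apply, smul_eq_mul, ← mul_assoc]
    unfold dch at h ⊢
    rw [Ring.mul_inverse_cancel _ h, one_mul]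
  change φ (numU g q) = _
  unfold numU chg chart
  rw [map_sum, Finset.mul_sum]
  refine Finset.sum_congr rfl fun j _ => ?_
  rw [map_mul, ha, hm, hinv, mul_assoc]

theorem numer {K L : Type} [Field K] [Field L] [Algebra K L] (g : Matrix (Fin 10) (Fin 10) L)
    (f : MvPolynomial Idx K) : ∃ (k : ℕ) (G : MvPolynomial Idx L), ∀ (T : Type) [CommRing T]
      [Algebra K T] [Algebra L T] [IsScalarTower K L T] (y : Idx → T),
      IsUnit (dch (g.map (algebraMap L T)) y) → aeval y G =
        dch (g.map (algebraMap L T)) y ^ k * aeval (chg (g.map (algebraMap L T)) y) f := by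
  induction f using MvPolynomial.induction_on with
  | C a =>
    refine ⟨0, C (algebraMap K L a), ?_⟩
    intro T _ _ _ _ y _
    rw [aeval_C, aeval_C, pow_zero, one_mul, ← IsScalarTower.algebraMap_apply]
  | add f f' hf hf' =>
    obtain ⟨k, G, hG⟩ := hf
    obtain ⟨k', G', hG'⟩ := hf'
    refine ⟨k + k', dch (g.map (C : L →+* MvPolynomial Idx L)) X ^ k' * G +
      dch (g.map (C : L →+* MvPolynomial Idx L)) X ^ k * G', ?_⟩
    intro T _ _ _ _ y hy
    rw [map_add, map_mul, map_mul, map_pow, map_pow, aeval_dch, hG T y hy, hG' T y hy, map_add]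
    ring
  | mul_X f q hf =>
    obtain ⟨k, G, hG⟩ := hf
    refine ⟨k + 1, G * numU g q, ?_⟩
    intro T _ _ _ _ y hy
    rw [map_mul, hG T y hy, aeval_numU g y hy q, map_mul, aeval_X]
    ring

end Pool.Agent.Helper7.CQ
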